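import Pool.Agent.Helper2.SV.GoalsC

/-!
# Project SV: packet AH (antiholes of length at least 7 in a connected claw-free graph)
-/

set_option autoImplicit false

namespace Pool.Agent.Helper32.SV

open Pool.Agent.Helper2.SV

lemma ah_par {n : ℕ} (hn : Odd n) (T : ZMod n → Prop) : ¬ ∀ i, (T i ↔ ¬ T (i + 1)) := by
  intro h
  have key : ∀ (k : ℕ) (i : ZMod n), (Even k → (T (i + k) ↔ T i)) ∧
      (¬ Even k → (T (i + k) ↔ ¬ T i)) := by
    intro k
    induction k with
    | zero =>
      intro i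
      refine ⟨fun _ => by simp, fun h => absurd (by decide) h⟩
    | succ k ih =>
      intro i
      have h1 := ih i
      have h2 := h (i + k)
      have e : i + ((k + 1 : ℕ) : ZMod n) = i + k + 1 := by push_cast; ring
      rw [e, Nat.even_add_one]
      constructor
      · intro hk
        have := h1.2 hk
        tauto
      · intro hk
        have := h1.1 (not_not.mp hk)
        tauto
  have h1 := (key n 0).2 (Nat.not_even_iff_odd.mpr hn)
  rw [ZMod.natCast_self, add_zero] at h1
  tauto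

lemma ah_ne {n : ℕ} (hn : 7 ≤ n) (k : ℕ) (h1 : 0 < k) (h2 : k < 7) : (k : ZMod n) ≠ 0 := by
  intro h
  rw [ZMod.natCast_eq_zero_iff] at h
  have := Nat.le_of_dvd h1 h
  omega

section

variable {V : Type} {G : SimpleGraph V} (hC : ClawFree G) {n : ℕ} (hn : 7 ≤ n)
  {q : ZMod n → V} (hq : IsAC G n q)

include hn hq in
lemma ah_con (j : ZMod n) : ¬ G.Adj (q j) (q (j + 1)) ∧ q j ≠ q (j + 1) := by
  have h1 : ((1 : ℕ) : ZMod n) ≠ 0 := ah_ne hn 1 (by norm_num) (by norm_num)
  rw [Nat.cast_one] at h1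
  have h2 : j ≠ j + 1 := by
    intro h
    apply h1
    linear_combination -h
  refine ⟨fun h => ?_, fun h => h2 (hq.1 h)⟩
  exact (hq.2 j (j + 1) h2).mp h (Or.inl rfl)

include hC hn hq in
lemma ah_sub (p : V) (hp : ∀ i, p ≠ q i) (j : ZMod n) (h1 : ¬ G.Adj p (q j))
    (h2 : ¬ G.Adj p (q (j + 1))) (i : ZMod n) (hi : G.Adj p (q i)) : i = j - 1 ∨ i = j + 2 := by
  by_contra hcon
  push Not at hcon
  obtain ⟨ha, hb⟩ := hcon
  have hij : i ≠ j := by
    rintro rfl
    exact h1 hi
  have hij1 : i ≠ j + 1 := by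
    rintro rfl
    exact h2 hi
  have a1 : G.Adj (q i) (q j) := by
    rw [hq.2 i j hij]
    rintro (h | h)
    · exact ha (by rw [h]; ring)
    · exact hij1 h
  have a2 : G.Adj (q i) (q (j + 1)) := by
    rw [hq.2 i (j + 1) hij1]
    rintro (h | h)
    · exact hij (add_right_cancel h).symm
    · exact hb (by rw [h]; ring)
  obtain ⟨c1, c2⟩ := ah_con hn hq j
  rcases hC (q i) p (q j) (q (j + 1)) hi.symm a1 a2 (hp j) (hp (j + 1)) c2 with h | h | h
  · exact h1 h
  · exact h2 h
  · exact c1 h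

include hC hn hq in
lemma ah_one (p : V) (hp : ∀ i, p ≠ q i) (hT : ∃ i, G.Adj p (q i)) (j : ZMod n) :
    G.Adj p (q j) ∨ G.Adj p (q (j + 1)) := by
  have n1 := ah_ne hn 1 (by norm_num) (by norm_num)
  have n2 := ah_ne hn 2 (by norm_num) (by norm_num)
  have n3 := ah_ne hn 3 (by norm_num) (by norm_num)
  have n4 := ah_ne hn 4 (by norm_num) (by norm_num)
  have n5 := ah_ne hn 5 (by norm_num) (by norm_num)
  have n6 := ah_ne hn 6 (by norm_num) (by norm_num)
  push_cast at n1 n2 n3 n4 n5 n6
  by_contra hcon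
  push Not at hcon
  obtain ⟨h1, h2⟩ := hcon
  have s0 := ah_sub hC hn hq p hp j h1 h2
  have t3 : ¬ G.Adj p (q (j + 3)) := by
    intro h
    rcases s0 _ h with e | e
    · exact n4 (by linear_combination e)
    · exact n1 (by linear_combination e)
  have t4 : ¬ G.Adj p (q (j + 3 + 1)) := by
    intro h
    rcases s0 _ h with e | e
    · exact n5 (by linear_combination e)
    · exact n2 (by linear_combination e)
  have s3 := ah_sub hC hn hq p hp (j + 3) t3 t4
  have t5 : ¬ G.Adj p (q (j + 3 + 1 + 1)) := by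
    intro h
    rcases s0 _ h with e | e
    · exact n6 (by linear_combination e)
    · exact n3 (by linear_combination e)
  have s4 := ah_sub hC hn hq p hp (j + 3 + 1) t4 t5
  obtain ⟨i, hi⟩ := hT
  have e0 : i = j + 2 := by
    rcases s0 i hi with e | e
    · rcases s3 i hi with e' | e'
      · exact absurd (by linear_combination e - e' : (3 : ZMod n) = 0) (fun h => n3 (by
          have : (3 : ZMod n) = 0 := h
          exact this))
      · exact absurd (by linear_combination e - e' : (6 : ZMod n) = 0) n6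
    · exact e
  rcases s4 i hi with e | e
  · exact n1 (by linear_combination e0 - e)
  · exact n4 (by linear_combination e0 - e)

include hC hn hq in
lemma ah_two (hno : Odd n) (p : V) (hp : ∀ i, p ≠ q i) (hT : ∃ i, G.Adj p (q i)) :
    ∃ j, G.Adj p (q j) ∧ G.Adj p (q (j + 1)) := by
  by_contra hcon
  push Not at hcon
  refine ah_par hno (fun i => G.Adj p (q i)) fun i => ?_
  have h1 := ah_one hC hn hq p hp hT i
  have h2 := hcon i
  tauto

end

/-- SV-AH. -/
theorem goalAH : G_AH := by
  intro V _ G hC hconn n hn hno q hq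
  have first : ∀ p, (∀ i, p ≠ q i) → ∃ i, G.Adj p (q i) := by
    by_contra hcon
    push Not at hcon
    obtain ⟨p0, hp0, hp1⟩ := hcon
    obtain ⟨x, hx, y, hy, hxy⟩ := hconn {x | (∀ i, x ≠ q i) ∧ ∀ i, ¬ G.Adj x (q i)}
      ⟨p0, hp0, hp1⟩ (by
        intro h
        have : q 0 ∈ {x | (∀ i, x ≠ q i) ∧ ∀ i, ¬ G.Adj x (q i)} := by
          rw [h]
          exact Set.mem_univ _
        exact this.1 0 rfl)
    have hyq : ∀ i, y ≠ q i := by
      rintro i rfl
      exact hx.2 i hxy
    have hyT : ∃ i, G.Adj y (q i) := by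
      by_contra h
      push Not at h
      exact hy ⟨hyq, h⟩
    obtain ⟨j, hj1, hj2⟩ := ah_two hC hn hq hno y hyq hyT
    obtain ⟨c1, c2⟩ := ah_con hn hq j
    rcases hC y (q j) (q (j + 1)) x hj1 hj2 hxy.symm c2 (hx.1 j).symm (hx.1 (j + 1)).symm with
      h | h | h
    · exact c1 h
    · exact hx.2 j h.symm
    · exact hx.2 (j + 1) h.symm
  refine ⟨first, ?_⟩
  intro u hu v hv v' hv' hvv
  by_contra hnadj
  have hvq : ∀ i, v ≠ q i := by
    rintro i rfl
    exact hv.2 (hu i)
  have hvq' : ∀ i, v' ≠ q i := by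
    rintro i rfl
    exact hv'.2 (hu i)
  have h1 := ah_one hC hn hq v hvq (first v hvq)
  have h1' := ah_one hC hn hq v' hvq' (first v' hvq')
  have hdis : ∀ i, G.Adj v (q i) → ¬ G.Adj v' (q i) := by
    intro i hi hi'
    rcases hC (q i) u v v' (hu i).symm hi.symm hi'.symm hv.1.symm hv'.1.symm hvv with h | h | h
    · exact hv.2 h
    · exact hv'.2 h
    · exact hnadj h
  refine ah_par hno (fun i => G.Adj v (q i)) fun i => ?_
  have a1 := h1 i
  have a2 := h1' i
  have a3 := hdis i
  have a4 := hdis (i + 1)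
  tauto

end Pool.Agent.Helper32.SV
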