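import Pool.Agent.Helper2.SV.GoalsC

/-!
# Project SV: packet I013A (`I0 = {0, 1, 3}`: preparation)
-/

set_option autoImplicit false

namespace Pool.Agent.Helper32.SV

open Pool.Agent.Helper2.SV

section

variable {V : Type} {G : SimpleGraph V}

lemma i_claw (hC : ClawFree G) {v a b c : V} (h1 : G.Adj v a) (h2 : G.Adj v b) (h3 : G.Adj v c)
    (hab : a ≠ b) (hac : a ≠ c) (hbc : b ≠ c) (n1 : ¬ G.Adj a b) (n2 : ¬ G.Adj a c) :
    G.Adj b c := by
  rcases hC v a b c h1 h2 h3 hab hac hbc with h | h | h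
  · exact absurd h n1
  · exact absurd h n2
  · exact h

variable {w : V → ℕ} {u : V} {d : Fin 5 → V}

lemma i_rim (hW : Wheel G u d) {m : V} (hm : m ∈ Mn G u) (j : Fin 5) : m ≠ d j := by
  rintro rfl
  exact hm.2 (hW.spoke j)

lemma i_non {m : V} {i j : Fin 5} (hm : m ∈ V2 G u d i) (h : ¬ (j = i ∨ j = i + 1)) :
    ¬ G.Adj m (d j) := fun h' => h ((hm.2 j).mp h')

lemma i_adj {m : V} {i j : Fin 5} (hm : m ∈ V2 G u d i) (h : j = i ∨ j = i + 1) :
    G.Adj m (d j) := (hm.2 j).mpr h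

lemma i_V0ne {y m : V} {i : Fin 5} (hy : y ∈ V0 G u d) (hm : m ∈ V2 G u d i) : y ≠ m := by
  rintro rfl
  exact hy.2 i (i_adj hm (Or.inl rfl))

lemma i_ne {m m' : V} {i i' : Fin 5} (hm : m ∈ V2 G u d i) (hm' : m' ∈ V2 G u d i')
    (j : Fin 5) (h : j = i ∨ j = i + 1) (h' : ¬ (j = i' ∨ j = i' + 1)) : m ≠ m' := by
  rintro rfl
  exact h' ((hm'.2 j).mp (i_adj hm h))

end

/-- SV-I013A. -/
theorem goalI013A : G_I013A := by
  intro V _ G w u d hC hM hW hF hV0 hE
  have E0 : (EE G u d 0).Nonempty := (hE 0).mpr (by decide)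
  have E1 : (EE G u d 1).Nonempty := (hE 1).mpr (by decide)
  have E3 : (EE G u d 3).Nonempty := (hE 3).mpr (by decide)
  have E2 : ¬ (EE G u d 2).Nonempty := fun h => absurd ((hE 2).mp h) (by decide)
  have E4 : ¬ (EE G u d 4).Nonempty := fun h => absurd ((hE 4).mp h) (by decide)
  have EV : ∀ i, EE G u d i ⊆ V2 G u d i := fun i x hx => hx.1
  have p01 : (0 : Fin 5) + 1 = 1 := by decide
  have p12 : (1 : Fin 5) + 1 = 2 := by decide
  have p34 : (3 : Fin 5) + 1 = 4 := by decide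
  have p40 : (4 : Fin 5) + 1 = 0 := by decide
  have p02 : (0 : Fin 5) + 2 = 2 := by decide
  have p13 : (1 : Fin 5) + 2 = 3 := by decide
  obtain ⟨v0E, v1E, hcomp⟩ := hF.e4 0 (Or.inl E0) (E0.mono (EV 0))
    (by rw [p01]; exact E1.mono (EV 1))
  rw [p01] at v1E hcomp
  have v2E : ∀ x, x ∉ V2 G u d 2 := by
    intro x hx
    obtain ⟨-, h, -⟩ := hF.e4 1 (Or.inl E1) (E1.mono (EV 1)) (by rw [p12]; exact ⟨x, hx⟩)
    rw [p12] at h
    exact E2 ⟨x, h hx⟩
  have v4E : ∀ x, x ∉ V2 G u d 4 := by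
    intro x hx
    obtain ⟨h, -, -⟩ := hF.e4 4 (Or.inr (by rw [p40]; exact E0)) ⟨x, hx⟩
      (by rw [p40]; exact E0.mono (EV 0))
    exact E4 ⟨x, h hx⟩
  -- (A)
  have hA : ∀ y ∈ V0 G u d, ∀ g ∈ EE G u d 0 ∪ EE G u d 1, G.Adj y g →
      ∀ g' ∈ EE G u d 0 ∪ EE G u d 1, G.Adj y g' := by
    intro y hy g hg hyg g' hg'
    exact hcomp y hy g (hg.imp (fun h => EV 0 h) (fun h => EV 1 h)) hyg g'
      (hg'.imp (fun h => EV 0 h) (fun h => EV 1 h))
  obtain ⟨g0, hg0⟩ := E0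
  obtain ⟨g1, hg1⟩ := E1
  obtain ⟨g3', hg3'⟩ := E3
  have E0 : (EE G u d 0).Nonempty := ⟨g0, hg0⟩
  have E1 : (EE G u d 1).Nonempty := ⟨g1, hg1⟩
  have E3 : (EE G u d 3).Nonempty := ⟨g3', hg3'⟩
  -- adjacency between EE 0 and EE 1
  have h01 : ∀ g ∈ EE G u d 0, ∀ g' ∈ EE G u d 1, G.Adj g g' := by
    intro g hg g' hg'
    exact hF.common g g' 1 hg.1.1 hg'.1.1
      (i_ne hg.1 hg'.1 0 (by decide) (by decide)) (i_adj hg.1 (by decide))
      (i_adj hg'.1 (by decide))
  have L01 : ∀ g3 ∈ EE G u d 3, ∀ g ∈ EE G u d 0, G.Adj g3 g → ∀ g' ∈ EE G u d 1,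
      G.Adj g3 g' := by
    intro g3 hg3 g hg h g' hg'
    refine (i_claw hC (a := d 0) (i_adj hg.1 (by decide)) (h01 g hg g' hg') h.symm ?_ ?_ ?_
      ?_ ?_).symm
    · exact (i_rim hW hg'.1.1 0).symm
    · exact (i_rim hW hg3.1.1 0).symm
    · exact i_ne hg'.1 hg3.1 1 (by decide) (by decide)
    · exact fun h => i_non hg'.1 (by decide) h.symm
    · exact fun h => i_non hg3.1 (by decide) h.symm
  have L10 : ∀ g3 ∈ EE G u d 3, ∀ g ∈ EE G u d 1, G.Adj g3 g → ∀ g' ∈ EE G u d 0,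
      G.Adj g3 g' := by
    intro g3 hg3 g hg h g' hg'
    refine (i_claw hC (a := d 2) (i_adj hg.1 (by decide)) (h01 g' hg' g hg).symm h.symm ?_ ?_ ?_
      ?_ ?_).symm
    · exact (i_rim hW hg'.1.1 2).symm
    · exact (i_rim hW hg3.1.1 2).symm
    · exact i_ne hg'.1 hg3.1 1 (by decide) (by decide)
    · exact fun h => i_non hg'.1 (by decide) h.symm
    · exact fun h => i_non hg3.1 (by decide) h.symm
  -- (B)
  have hB : ∀ g3 ∈ EE G u d 3, ∀ g ∈ EE G u d 0 ∪ EE G u d 1, G.Adj g3 g →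
      (∀ g' ∈ EE G u d 0 ∪ EE G u d 1, G.Adj g3 g') ∧
      ∀ y ∈ V0 G u d, ∀ g' ∈ EE G u d 0 ∪ EE G u d 1, G.Adj y g' → G.Adj y g3 := by
    intro g3 hg3 g hg h
    have hall : ∀ g' ∈ EE G u d 0 ∪ EE G u d 1, G.Adj g3 g' := by
      rcases hg with hg | hg
      · have a1 := L01 g3 hg3 g hg h
        have a0 := L10 g3 hg3 g1 hg1 (a1 g1 hg1)
        rintro g' (h' | h')
        · exact a0 g' h'
        · exact a1 g' h'
      · have a0 := L10 g3 hg3 g hg h
        have a1 := L01 g3 hg3 g0 hg0 (a0 g0 hg0)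
        rintro g' (h' | h')
        · exact a0 g' h'
        · exact a1 g' h'
    refine ⟨hall, ?_⟩
    intro y hy g' hg' hyg'
    have hyg0 := hA y hy g' hg' hyg' g0 (Or.inl hg0)
    refine i_claw hC (a := d 1) (i_adj hg0.1 (by decide)) hyg0.symm
      (hall g0 (Or.inl hg0)).symm ?_ ?_ ?_ ?_ ?_
    · exact (i_rim hW hy.1 1).symm
    · exact (i_rim hW hg3.1.1 1).symm
    · exact i_V0ne hy hg3.1
    · exact fun h => hy.2 1 h.symm
    · exact fun h => i_non hg3.1 (by decide) h.symm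
  -- (C1)
  have hC1 : ∀ t ∈ SS G u d 3, ∀ i : Fin 5, (i = 0 ∨ i = 1) → t ∈ SS G u d i →
      ∀ g ∈ EE G u d i, ∀ g3 ∈ EE G u d 3, G.Adj g3 g := by
    intro t ht3 i hi hti g hg g3 hg3
    have hg3g : g ≠ g3 := by
      rcases hi with rfl | rfl
      · exact i_ne hg.1 hg3.1 1 (by decide) (by decide)
      · exact i_ne hg.1 hg3.1 1 (by decide) (by decide)
    have htg := hF.sC i t hti g hg
    have htg3 := hF.sC 3 t ht3 g3 hg3
    by_cases hut : G.Adj u t
    · refine (i_claw hC (a := u) hut.symm htg htg3 ?_ ?_ hg3g ?_ ?_).symm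
      · exact fun h => hg.1.1.1 h.symm
      · exact fun h => hg3.1.1.1 h.symm
      · exact hg.1.1.2
      · exact hg3.1.1.2
    · have htu : t ≠ u := by
        rintro rfl
        exact hF.uT.2 3 ht3
      have htM : t ∈ Mn G u := ⟨htu, hut⟩
      have hrim := i_rim hW htM
      have t3 : G.Adj t (d 3) := (hF.sD 3 t ht3).1.resolve_left (hrim 3)
      have t4 : G.Adj t (d 4) := by
        have := (hF.sD 3 t ht3).2
        rw [p34] at this
        exact this.resolve_left (hrim 4)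
      have t1 : G.Adj t (d 1) := by
        rcases hi with rfl | rfl
        · have := (hF.sD 0 t hti).2
          rw [p01] at this
          exact this.resolve_left (hrim 1)
        · exact (hF.sD 1 t hti).1.resolve_left (hrim 1)
      have hth : Three G d t := by
        rcases hF.types t htM with h | ⟨j, hj⟩ | h
        · exact absurd h ht3.1.1
        · have a1 := (hj.2 1).mp t1
          have a3 := (hj.2 3).mp t3
          have a4 := (hj.2 4).mp t4
          exfalso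
          clear hj
          revert a1 a3 a4
          revert j
          decide
        · exact h
      have a01 := hF.e3 0 E0 t htM hth (Or.inr (by rw [p01]; exact t1))
      have a12 := hF.e3 1 E1 t htM hth (Or.inl t1)
      rw [p12] at a12
      rcases hi with rfl | rfl
      · refine (i_claw hC (a := d 2) a12.2 htg htg3 ?_ ?_ hg3g ?_ ?_).symm
        · exact (i_rim hW hg.1.1 2).symm
        · exact (i_rim hW hg3.1.1 2).symm
        · exact fun h => i_non hg.1 (by decide) h.symm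
        · exact fun h => i_non hg3.1 (by decide) h.symm
      · refine (i_claw hC (a := d 0) a01.1 htg htg3 ?_ ?_ hg3g ?_ ?_).symm
        · exact (i_rim hW hg.1.1 0).symm
        · exact (i_rim hW hg3.1.1 0).symm
        · exact fun h => i_non hg.1 (by decide) h.symm
        · exact fun h => i_non hg3.1 (by decide) h.symm
  -- (C2)
  have hC2 : ∀ t ∈ SS G u d 3, ∀ i : Fin 5, (i = 0 ∨ i = 1) → t ∉ SS G u d i := by
    intro t ht3 i hi hti
    -- every g3 is adjacent to a vertex of EE 0 ∪ EE 1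
    have hex : ∃ g, g ∈ EE G u d 0 ∪ EE G u d 1 ∧ ∀ g3 ∈ EE G u d 3, G.Adj g3 g := by
      rcases hi with rfl | rfl
      · exact ⟨g0, Or.inl hg0, fun g3 hg3 => hC1 t ht3 0 (by decide) hti g0 hg0 g3 hg3⟩
      · exact ⟨g1, Or.inr hg1, fun g3 hg3 => hC1 t ht3 1 (by decide) hti g1 hg1 g3 hg3⟩
    obtain ⟨g, hg, hgall⟩ := hex
    have hc3 : ∀ g3 ∈ EE G u d 3, (∀ g' ∈ EE G u d 0 ∪ EE G u d 1, G.Adj g3 g') ∧
        ∀ y ∈ V0 G u d, ∀ g' ∈ EE G u d 0 ∪ EE G u d 1, G.Adj y g' → G.Adj y g3 :=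
      fun g3 hg3 => hB g3 hg3 g hg (hgall g3 hg3)
    have hY3 : ∀ y ∈ V0 G u d, ∀ g3 ∈ EE G u d 3, G.Adj y g3 → G.Adj y g0 := by
      intro y hy g3 hg3 hyg
      refine i_claw hC (a := d 3) (i_adj hg3.1 (by decide)) hyg.symm
        ((hc3 g3 hg3).1 g0 (Or.inl hg0)) ?_ ?_ ?_ ?_ ?_
      · exact (i_rim hW hy.1 3).symm
      · exact (i_rim hW hg0.1.1 3).symm
      · exact i_V0ne hy hg0.1
      · exact fun h => hy.2 3 h.symm
      · exact fun h => i_non hg0.1 (by decide) h.symm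
    set Y0 : Set V := {y | y ∈ V0 G u d ∧ G.Adj y g0} with hY0
    set E : Set V := (EE G u d 0 ∪ EE G u d 1) ∪ EE G u d 3 with hEdef
    have hYE : ∀ y ∈ Y0, ∀ e ∈ E, G.Adj y e := by
      rintro y ⟨hy, hyg⟩ e (he | he)
      · exact hA y hy g0 (Or.inl hg0) hyg e he
      · exact (hc3 e he).2 y hy g0 (Or.inl hg0) hyg
    have hEM : ∀ e ∈ E, e ∈ Mn G u := by
      rintro e ((he | he) | he) <;> exact he.1.1
    have hEcl : Clq G E := by
      have k01 := h01
      rintro a ((ha | ha) | ha) b ((hb | hb) | hb) hab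
      · exact hF.common a b 0 ha.1.1 hb.1.1 hab (i_adj ha.1 (by decide)) (i_adj hb.1 (by decide))
      · exact h01 a ha b hb
      · exact ((hc3 b hb).1 a (Or.inl ha)).symm
      · exact (h01 b hb a ha).symm
      · exact hF.common a b 1 ha.1.1 hb.1.1 hab (i_adj ha.1 (by decide)) (i_adj hb.1 (by decide))
      · exact ((hc3 b hb).1 a (Or.inr ha)).symm
      · exact (hc3 a ha).1 b (Or.inl hb)
      · exact (hc3 a ha).1 b (Or.inr hb)
      · exact hF.common a b 3 ha.1.1 hb.1.1 hab (i_adj ha.1 (by decide)) (i_adj hb.1 (by decide))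
    have hEV0 : ∀ e ∈ E, e ∉ V0 G u d := by
      rintro e ((he | he) | he) h
      · exact h.2 0 (i_adj he.1 (by decide))
      · exact h.2 1 (i_adj he.1 (by decide))
      · exact h.2 3 (i_adj he.1 (by decide))
    refine hM.join (V0 G u d) Y0 E hV0 ?_ (fun y hy => hy.1) hEV0 ?_ ?_
    · intro h
      have : u ∈ V0 G u d := by rw [h]; exact Set.mem_univ _
      exact this.1.1 rfl
    · rintro a (ha | ha) b (hb | hb) hab
      · exact hF.v0C 0 g0 hg0.1 a ha.1 b hb.1 ha.2 hb.2 hab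
      · exact hYE a ha b hb
      · exact (hYE b hb a ha).symm
      · exact hEcl a ha b hb hab
    · intro x hx y hy hxy
      rcases hF.v0E x hx y hxy with h | ⟨j, hj⟩
      · exact absurd h hy
      · have hyE : y ∈ E := by
          rcases (hE j).mp ⟨y, hj⟩ with rfl | rfl | rfl
          · exact Or.inl (Or.inl hj)
          · exact Or.inl (Or.inr hj)
          · exact Or.inr hj
        refine ⟨⟨hx, ?_⟩, hyE⟩
        rcases hyE with h | h
        · exact hA x hx y h hxy g0 (Or.inl hg0)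
        · exact hY3 x hx y h hxy
  -- (D)
  have hD : ∀ p ∈ SS G u d 0, p ∈ SS G u d 1 → ∀ s ∈ SS G u d 3, ¬ G.Adj p s := by
    intro p hp0 hp1 s hs hps
    have s0 := hC2 s hs 0 (by decide)
    have s1 := hC2 s hs 1 (by decide)
    have n0 : ¬ G.Adj s g0 := fun h => s0 ⟨hs.1, g0, hg0, h⟩
    have n1 : ¬ G.Adj s g1 := fun h => s1 ⟨hs.1, g1, hg1, h⟩
    have pd0 : p ≠ d 0 := by
      rintro rfl
      exact absurd ((hF.dT 0).2 1 hp1) (by decide)
    have pd2 : p ≠ d 2 := by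
      rintro rfl
      exact absurd ((hF.dT 2).2 0 hp0) (by decide)
    have a0 : G.Adj p (d 0) := (hF.sD 0 p hp0).1.resolve_left pd0
    have a2 : G.Adj p (d 2) := by
      have := (hF.sD 1 p hp1).2
      rw [p12] at this
      exact this.resolve_left pd2
    have sd2 : s ≠ d 2 := by
      rintro rfl
      exact absurd ((hF.dT 2).2 3 hs) (by decide)
    have sd0 : s ≠ d 0 := by
      rintro rfl
      exact absurd ((hF.dT 0).2 3 hs) (by decide)
    have sg0 : g0 ≠ s := by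
      rintro rfl
      exact hs.1.2 0 hg0
    have sg1 : g1 ≠ s := by
      rintro rfl
      exact hs.1.2 1 hg1
    have b2 : G.Adj s (d 2) := i_claw hC (a := g0) (hF.sC 0 p hp0 g0 hg0) hps a2 sg0
      (i_rim hW hg0.1.1 2) sd2 (fun h => n0 h.symm) (i_non hg0.1 (by decide))
    have b0 : G.Adj s (d 0) := i_claw hC (a := g1) (hF.sC 1 p hp1 g1 hg1) hps a0 sg1
      (i_rim hW hg1.1.1 0) sd0 (fun h => n1 h.symm) (i_non hg1.1 (by decide))
    have b3 := hF.sC 3 s hs g3' hg3'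
    have hd02 : d 0 ≠ d 2 := fun h => absurd (hW.inj h) (by decide)
    have := i_claw hC (a := g3') b3 b0 b2 (i_rim hW hg3'.1.1 0) (i_rim hW hg3'.1.1 2) hd02
      (i_non hg3'.1 (by decide)) (i_non hg3'.1 (by decide))
    have hnon := hW.non 0
    rw [p02] at hnon
    exact hnon this
  refine ⟨hA, hB, fun t ht => ⟨hC2 t ht 0 (by decide), hC2 t ht 1 (by decide)⟩, hD, ?_⟩
  -- (E)
  have hR1 : ∀ x, x ∈ TT G u d → x ∉ SS G u d 0 → x ∉ SS G u d 1 → x ∉ SS G u d 3 →
      x = u ∨ (G.Adj u x ∧ ∀ j, x ≠ d j) := by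
    intro x hT h0 h1 h3
    have hrim : ∀ j, x ≠ d j := by
      intro j hj
      have s0 := hF.sd 0 E0
      have s1 := hF.sd 1 E1
      have s3 := hF.sd 3 E3
      rw [p01] at s0
      rw [p12] at s1
      rw [p34] at s3
      subst hj
      fin_cases j
      · exact h0 s0.1
      · exact h0 s0.2
      · exact h1 s1.2
      · exact h3 s3.1
      · exact h3 s3.2
    by_cases hxu : x = u
    · exact Or.inl hxu
    by_cases hux : G.Adj u x
    · exact Or.inr ⟨hux, hrim⟩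
    exfalso
    have hxM : x ∈ Mn G u := ⟨hxu, hux⟩
    have m0 : (G.Adj x (d 0) ∨ G.Adj x (d 1)) → x ∈ SS G u d 0 := by
      intro h
      refine hF.sM 0 E0 x hxM hT ?_
      rw [p01]
      exact h
    have m3 : (G.Adj x (d 3) ∨ G.Adj x (d 4)) → x ∈ SS G u d 3 := by
      intro h
      refine hF.sM 3 E3 x hxM hT ?_
      rw [p34]
      exact h
    rcases hF.types x hxM with h | ⟨j, hj⟩ | ⟨j, hj⟩
    · exact hT.1 h
    · fin_cases j
      · exact hT.2 0 (v0E hj)
      · exact hT.2 1 (v1E hj)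
      · exact v2E x hj
      · exact h3 (m3 (Or.inl (i_adj hj (Or.inl rfl))))
      · exact v4E x hj
    · fin_cases j
      · exact h0 (m0 (Or.inl hj.1))
      · exact h0 (m0 (Or.inr hj.1))
      · exact h3 (m3 (Or.inl hj.2.1))
      · exact h3 (m3 (Or.inl hj.1))
      · exact h3 (m3 (Or.inr hj.1))
  have hR2 : ∀ x, x ∉ SS G u d 0 → x ∉ SS G u d 1 → G.Adj u x → (∀ j, x ≠ d j) →
      G.Adj x (d 3) := by
    intro x h0 h1 hux hrim
    by_contra hx3
    have x1 : G.Adj x (d 1) := by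
      have := hF.miss x 1 hux hrim
      rw [p13] at this
      exact this.resolve_right hx3
    by_cases hx2 : G.Adj x (d 2)
    · refine h1 (hF.sN 1 E1 x hux hrim (Or.inr ?_))
      rw [p12, p13]
      exact ⟨hx2, hx3⟩
    · refine h0 (hF.sN 0 E0 x hux hrim (Or.inr ?_))
      rw [p01, p02]
      exact ⟨x1, hx2⟩
  rintro x ⟨hxT, hx0, hx1, hx3⟩ y ⟨hyT, hy0, hy1, hy3⟩ hxy
  rcases hR1 x hxT hx0 hx1 hx3 with rfl | ⟨hux, hxr⟩
  · rcases hR1 y hyT hy0 hy1 hy3 with h | ⟨huy, -⟩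
    · exact absurd h.symm hxy
    · exact huy
  · rcases hR1 y hyT hy0 hy1 hy3 with rfl | ⟨huy, hyr⟩
    · exact hux.symm
    · have ax := hR2 x hx0 hx1 hux hxr
      have ay := hR2 y hy0 hy1 huy hyr
      refine i_claw hC (a := g3') (i_adj hg3'.1 (by decide)).symm ax.symm ay.symm ?_ ?_ hxy ?_ ?_
      · rintro rfl
        exact hxT.2 3 hg3'
      · rintro rfl
        exact hyT.2 3 hg3'
      · exact fun h => hx3 ⟨hxT, g3', hg3', h.symm⟩
      · exact fun h => hy3 ⟨hyT, g3', hg3', h.symm⟩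

end Pool.Agent.Helper32.SV
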