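import Pool.Agent.Helper2.SV.GoalsP

/-!
# Project SV: packet TRANS (from a failure of `PW` to a minimal counterexample)
-/

set_option autoImplicit false

open scoped Classical

namespace Pool.Agent.Helper32.SV

open Pool.Agent.Helper2.SV

variable {V : Type}

/-- the inclusion of `S` -/
def emb (S : Set V) : ↥S ↪ V := Function.Embedding.subtype (fun x => x ∈ S)

lemma emb_apply (S : Set V) (x : ↥S) : emb S x = (x : V) := rfl

lemma exists_map {S : Set V} (K : Finset V) (hK : (↑K : Set V) ⊆ S) :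
    ∃ K' : Finset ↥S, K'.map (emb S) = K :=
  ⟨K.subtype (fun x => x ∈ S), Finset.subtype_map_of_mem fun _ hx => hK hx⟩

lemma clq_map {G : SimpleGraph V} {S : Set V} (K : Finset ↥S) :
    Clq G (↑(K.map (emb S)) : Set V) ↔ Clq (G.induce S) (↑K : Set ↥S) := by
  constructor
  · intro h x hx y hy hxy
    have h1 := h x.1 (by
      rw [Finset.coe_map]
      exact ⟨x, hx, rfl⟩) y.1 (by
      rw [Finset.coe_map]
      exact ⟨y, hy, rfl⟩) (fun h => hxy (Subtype.ext h))
    exact h1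
  · intro h x hx y hy hxy
    rw [Finset.coe_map] at hx hy
    obtain ⟨x', hx', rfl⟩ := hx
    obtain ⟨y', hy', rfl⟩ := hy
    exact h x' hx' y' hy' (fun h => hxy (by rw [h]))

lemma map_sub {S : Set V} (K : Finset ↥S) (X : Set V) (Y : Set ↥S)
    (h : ∀ x : ↥S, x ∈ Y → (x : V) ∈ X) (hK : (↑K : Set ↥S) ⊆ Y) :
    (↑(K.map (emb S)) : Set V) ⊆ X := by
  intro x hx
  rw [Finset.coe_map] at hx
  obtain ⟨x', hx', rfl⟩ := hx
  exact h x' (hK hx')

lemma perf1 {G : SimpleGraph V} {S : Set V} (A : Set ↥S)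
    (h : Perf G ((fun x : ↥S => (x : V)) '' A)) : Perf (G.induce S) A := by
  intro X hX n hn
  obtain ⟨f, hf1, hf2⟩ := h ((fun x : ↥S => (x : V)) '' X) (Set.image_mono hX) n (by
    intro K hK hc
    obtain ⟨K', rfl⟩ := exists_map (S := S) K (by
      intro x hx
      obtain ⟨y, -, rfl⟩ := hK hx
      exact y.2)
    rw [Finset.card_map]
    refine hn K' ?_ ((clq_map K').mp hc)
    intro x hx
    have h1 : (x : V) ∈ (↑(K'.map (emb S)) : Set V) := by
      rw [Finset.coe_map]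
      exact ⟨x, hx, rfl⟩
    obtain ⟨y, hy, hyx⟩ := hK h1
    have : y = x := Subtype.ext hyx
    rw [← this]
    exact hy)
  refine ⟨fun x => f x, fun x hx => hf1 _ ⟨x, hx, rfl⟩, ?_⟩
  intro x hx y hy hxy
  exact hf2 _ ⟨x, hx, rfl⟩ _ ⟨y, hy, rfl⟩ hxy

lemma perf2 {G : SimpleGraph V} {S : Set V} (A : Set V) (h : Perf G A) :
    Perf (G.induce S) ((fun x : ↥S => (x : V)) ⁻¹' A) := by
  apply perf1
  exact h.mono (Set.image_preimage_subset _ _)

lemma perf3 {G : SimpleGraph V} {S : Set V} (A : Set ↥S) (h : Perf (G.induce S) A) :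
    Perf G ((fun x : ↥S => (x : V)) '' A) := by
  intro X hX n hn
  have hXA : (fun x : ↥S => (x : V)) ⁻¹' X ⊆ A := by
    intro x hx
    obtain ⟨y, hy, hyx⟩ := hX hx
    have : y = x := Subtype.ext hyx
    rw [← this]
    exact hy
  obtain ⟨f, hf1, hf2⟩ := h ((fun x : ↥S => (x : V)) ⁻¹' X) hXA n (by
    intro K hK hc
    have h1 := hn (K.map (emb S)) (map_sub K X _ (fun x hx => hx) hK) ((clq_map K).mpr hc)
    rwa [Finset.card_map] at h1)
  refine ⟨fun v => if h : v ∈ S then f ⟨v, h⟩ else 0, ?_, ?_⟩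
  · intro x hx
    obtain ⟨y, hy, rfl⟩ := hX hx
    show (if h : (y : V) ∈ S then f ⟨y, h⟩ else 0) < n
    rw [dif_pos y.2]
    exact hf1 y hx
  · intro x hx z hz hxz
    obtain ⟨y, hy, rfl⟩ := hX hx
    obtain ⟨y', hy', rfl⟩ := hX hz
    show (if h : (y : V) ∈ S then f ⟨y, h⟩ else 0) ≠ (if h : (y' : V) ∈ S then f ⟨y', h⟩ else 0)
    rw [dif_pos y.2, dif_pos y'.2]
    exact hf2 y hx y' hz hxz

/-- the extension by `0` -/
noncomputable def ext (S : Set V) (w : ↥S → ℕ) (v : V) : ℕ := if h : v ∈ S then w ⟨v, h⟩ else 0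

lemma sum_ext {S : Set V} (w : ↥S → ℕ) (K : Finset ↥S) :
    ∑ x ∈ K.map (emb S), ext S w x = ∑ x ∈ K, w x := by
  rw [Finset.sum_map]
  refine Finset.sum_congr rfl fun x _ => ?_
  unfold ext
  rw [emb_apply, dif_pos x.2]

lemma sum_res {S : Set V} (w : V → ℕ) (K : Finset ↥S) :
    ∑ x ∈ K.map (emb S), w x = ∑ x ∈ K, w (x : V) := by
  rw [Finset.sum_map]
  rfl

lemma pos_of {G : SimpleGraph V} {S : Set V} (w : V → ℕ) (ih : ∀ T ⊂ S, PW G T)
    (hno : ¬ ∃ A, Good G w S A) : ∀ x ∈ S, 0 < w x := by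
  intro x hx
  by_contra hwx
  set S' : Set V := {x | x ∈ S ∧ 0 < w x} with hS'
  have hsub : S' ⊆ S := fun y hy => hy.1
  have hss : S' ⊂ S := by
    refine (Set.ssubset_iff_of_subset hsub).mpr ⟨x, hx, fun h => hwx h.2⟩
  obtain ⟨A, hA1, hA2, hA3⟩ := ih S' hss w
  refine hno ⟨A, hA1.trans hsub, hA2, ?_⟩
  intro K hK hK0
  have hsum : ∑ x ∈ K.filter (fun x => 0 < w x), w x = ∑ x ∈ K, w x := by
    rw [Finset.sum_filter]
    refine Finset.sum_congr rfl fun y _ => ?_
    split_ifs with h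
    · rfl
    · omega
  obtain ⟨y, hy1, hy2⟩ := hA3 (K.filter (fun x => 0 < w x)) (by
    refine ⟨?_, ?_, ?_⟩
    · intro y hy
      rw [Finset.mem_coe, Finset.mem_filter] at hy
      exact ⟨hK.1 hy.1, hy.2⟩
    · refine hK.2.1.mono ?_
      intro y hy
      rw [Finset.mem_coe, Finset.mem_filter] at hy
      exact hy.1
    · intro L hL hLc
      rw [hsum]
      exact hK.2.2 L (hL.trans hsub) hLc) (by rw [hsum]; exact hK0)
  exact ⟨y, (Finset.mem_filter.mp hy1).1, hy2⟩

lemma mince {G : SimpleGraph V} {S : Set V} (w : V → ℕ) (ih : ∀ T ⊂ S, PW G T)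
    (hno : ¬ ∃ A, Good G w S A) : MinCE (G.induce S) (fun x : ↥S => w x) := by
  refine ⟨fun v => pos_of w ih hno v.1 v.2, ?_, ?_⟩
  · intro T hT w2
    have hss : (fun x : ↥S => (x : V)) '' T ⊂ S := by
      have hsub : (fun x : ↥S => (x : V)) '' T ⊆ S := by
        rintro _ ⟨y, -, rfl⟩
        exact y.2
      obtain ⟨x, hx⟩ := (Set.ne_univ_iff_exists_notMem T).mp hT
      refine (Set.ssubset_iff_of_subset hsub).mpr ⟨x.1, x.2, ?_⟩
      rintro ⟨y, hy, hyx⟩
      have : y = x := Subtype.ext hyx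
      rw [this] at hy
      exact hx hy
    obtain ⟨A, hA1, hA2, hA3⟩ := ih _ hss (ext S w2)
    refine ⟨(fun x : ↥S => (x : V)) ⁻¹' A, ?_, perf2 A hA2, ?_⟩
    · intro x hx
      obtain ⟨y, hy, hyx⟩ := hA1 hx
      have : y = x := Subtype.ext hyx
      rw [← this]
      exact hy
    · intro K hK hK0
      obtain ⟨x, hx1, hx2⟩ := hA3 (K.map (emb S)) (by
        refine ⟨map_sub K _ T (fun x hx => ⟨x, hx, rfl⟩) hK.1, (clq_map K).mpr hK.2.1, ?_⟩
        intro L hL hLc
        obtain ⟨L', rfl⟩ := exists_map (S := S) L (hL.trans hss.subset)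
        rw [sum_ext, sum_ext]
        refine hK.2.2 L' ?_ ((clq_map L').mp hLc)
        intro x hx
        have h1 : (x : V) ∈ (↑(L'.map (emb S)) : Set V) := by
          rw [Finset.coe_map]
          exact ⟨x, hx, rfl⟩
        obtain ⟨y, hy, hyx⟩ := hL h1
        have : y = x := Subtype.ext hyx
        rw [← this]
        exact hy) (by rw [sum_ext]; exact hK0)
      rw [Finset.mem_map] at hx1
      obtain ⟨y, hy, rfl⟩ := hx1
      exact ⟨y, hy, hx2⟩
  · intro A hA
    by_contra hcon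
    push Not at hcon
    apply hno
    refine ⟨(fun x : ↥S => (x : V)) '' A, ?_, perf3 A hA, ?_⟩
    · rintro _ ⟨y, -, rfl⟩
      exact y.2
    · intro K hK hK0
      obtain ⟨K', rfl⟩ := exists_map (S := S) K hK.1
      rw [sum_res] at hK0
      obtain ⟨x, hx1, hx2⟩ := hcon K' (by
        refine ⟨?_, (clq_map K').mp hK.2.1, ?_⟩
        · rw [Finset.nonempty_iff_ne_empty]
          rintro rfl
          simp at hK0
        · intro L hL
          have h1 := hK.2.2 (L.map (emb S)) (map_sub L S Set.univ (fun x _ => x.2)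
            (Set.subset_univ _)) ((clq_map L).mpr hL)
          rwa [sum_res, sum_res] at h1)
      exact ⟨x.1, Finset.mem_map.mpr ⟨x, hx1, rfl⟩, x, hx2, rfl⟩

/-- SV-TRANS. -/
theorem goalTRANS : G_TRANS := by
  intro C hC1 hC2 V hV G S hG
  have := hV
  have key : ∀ (n : ℕ) (S : Set V), S.ncard = n → PW G S := by
    intro n
    induction n using Nat.strong_induction_on with
    | _ n IH =>
      intro S hS w
      by_contra hno
      have ih : ∀ T ⊂ S, PW G T := by
        intro T hT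
        exact IH T.ncard (by rw [← hS]; exact Set.ncard_lt_ncard hT (Set.toFinite S)) T rfl
      exact hC2 ↥S (G.induce S) _ (mince w ih hno) (hC1 V G S hG)
  exact key _ S rfl

end Pool.Agent.Helper32.SV
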